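import Pool.Agent.H290.FX.PExp

/-!
# Exponential sums over the `a` with `a² + X` irreducible

`K` is a finite field of characteristic two, `q` the number of its elements.  Over `K[X]` the
analogue of the primes `n² + 1` are the irreducible polynomials `a² + X`.

**Theorem.** There is `c > 0` such that for every additive character `χ` of `K[X]` the sum of `χ a`
over the monic `a` of degree `d` with `a² + X` irreducible is

`μ(r) χ(ρ) / φ(r) · q^d / (2 d) + O(q^((1-c) d))`,

uniformly in `χ`, where `r` is a period of `χ` of least degree (monic, `χ (r s) = 1` whenever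
`deg (r s) < d`) and `ρ` is any monic polynomial of degree `d` with `r ∣ ρ² + X` (it exists iff `r` is
squarefree; otherwise `μ(r) = 0`).

For `χ = 1` (`r = 1`) this is the prime number theorem for the values `a² + X` (helper604, Landau's
fourth problem for `K[X]`).  As every condition given by few linear equations over `𝔽₂` in the
coefficients of `a` is a mean of additive characters, the theorem contains the distribution of
these `a` in residue classes, in short intervals, and in all affine subspaces of small codimension, with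
a power saving; it is the analogue of the estimates of Vinogradov (minor arcs) and Siegel-Walfisz
(major arcs) for the primes.

Method: `Pool/Agent/H290/FX/Stm.lean`.  The Möbius function of `A = A₀ + m v²` times the character of
the root of `X` modulo `A` is bounded along fibres by repeated differencing; this treats the divisors
`D` of `a² + X` of degree near `d` together with `χ`.

Statements and paper proofs by helper290; Lean proofs of the parts by helper297, 261, 975, 328, 213, 253,
922, 548, 350, 721, 17, 825, 665, 662, 280, 97; the engine for `χ = 1` is helper604's.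
-/

set_option autoImplicit false

namespace Pool.Agent.Results.MP_7169d5_nt.AllAdditiveCharacters

open Polynomial

/-- The sum of `χ a` over the monic `a` of degree `d` with `a ^ 2 + X` irreducible. -/
noncomputable def expSum (K : Type) [Field K] (d : ℕ) (χ : AddChar K[X] ℂ) : ℂ :=
  ∑ᶠ a ∈ {a : K[X] | a.Monic ∧ a.natDegree = d ∧ Irreducible (a ^ 2 + X)}, χ a

/-- `r` is a monic period of `χ` on the polynomials of degree less than `d`. -/
def Period (K : Type) [Field K] (d : ℕ) (χ : AddChar K[X] ℂ) (r : K[X]) : Prop :=
  r.Monic ∧ ∀ s : K[X], (r * s).degree < (d : WithBot ℕ) → χ (r * s) = 1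

/-- `r` is a monic period of least degree. -/
def LeastPeriod (K : Type) [Field K] (d : ℕ) (χ : AddChar K[X] ℂ) (r : K[X]) : Prop :=
  Period K d χ r ∧ ∀ r' : K[X], Period K d χ r' → r.natDegree ≤ r'.natDegree

open Classical in
/-- The Möbius function. -/
noncomputable def mu (K : Type) [Field K] (r : K[X]) : ℤ :=
  if Squarefree r then (-1) ^ Multiset.card (UniqueFactorizationMonoid.factors r) else 0

open Classical in
/-- The Euler function of a squarefree `r`: the product of the `q ^ deg P - 1` over the monic
irreducible divisors `P` of `r`. -/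
noncomputable def phi (K : Type) [Field K] [Fintype K] (r : K[X]) : ℝ :=
  ∏ P ∈ (UniqueFactorizationMonoid.normalizedFactors r).toFinset,
    ((Fintype.card K : ℝ) ^ P.natDegree - 1)

/-- **Exponential sums over the `a` with `a² + X` irreducible, for all additive characters.** -/
theorem result (K : Type) [Field K] [Fintype K] [CharP K 2] : ∃ c : ℝ, 0 < c ∧ ∃ d₀ : ℕ,
    ∀ (d : ℕ) (χ : AddChar K[X] ℂ), d₀ ≤ d →
      ∀ r : K[X], LeastPeriod K d χ r →
        ∀ ρ : K[X], ρ.Monic → ρ.natDegree = d → (Squarefree r → r ∣ ρ ^ 2 + X) →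
          ‖expSum K d χ -
              (mu K r : ℂ) * χ ρ / (phi K r : ℂ) *
                ((Fintype.card K : ℂ) ^ d / (2 * d))‖ ≤
            (Fintype.card K : ℝ) ^ ((1 - c) * d) := by
  obtain ⟨c, hc, d₀, H⟩ := Pool.Agent.H290.FX.PExp.real_form K
  refine ⟨c, hc, d₀, fun d χ hd r hr ρ hρ hρd hsq => ?_⟩
  -- the values of `χ` are real
  have hsq1 : ∀ a : K[X], χ a * χ a = 1 := fun a => by
    rw [← AddChar.map_add_eq_mul, CharTwo.add_self_eq_zero, AddChar.map_zero_eq_one]
  have him : ∀ a : K[X], (χ a).im = 0 := fun a => by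
    rcases mul_self_eq_one_iff.1 (hsq1 a) with h | h <;> rw [h] <;> simp
  have hre : ∀ a : K[X], (((χ a).re : ℝ) : ℂ) = χ a := fun a =>
    Complex.ext (by simp) (by simp [him a])
  let ψ : AddChar K[X] ℝ :=
    { toFun := fun a => (χ a).re
      map_zero_eq_one' := by simp
      map_add_eq_mul' := fun a b => by
        rw [AddChar.map_add_eq_mul, Complex.mul_re, him a, him b]
        simp }
  have hψ : ∀ a : K[X], ((ψ a : ℝ) : ℂ) = χ a := hre
  have hψ1 : ∀ a : K[X], χ a = 1 ↔ ψ a = 1 := fun a => by
    rw [← hψ a]
    norm_cast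
  have hper : ∀ r' : K[X], r'.Monic →
      (Period K d χ r' ↔ Pool.Agent.H290.FX.Per d ψ r') := fun r' hr' => by
    constructor
    · rintro ⟨-, h⟩ s hs
      exact (hψ1 _).1 (h s hs)
    · intro h
      exact ⟨hr', fun s hs => (hψ1 _).2 (h s hs)⟩
  have hM : Pool.Agent.H290.FX.MPer d ψ r := by
    refine ⟨hr.1.1, (hper r hr.1.1).1 hr.1, fun r' h1 h2 h3 => ?_⟩
    have := hr.2 r' ((hper r' h1).2 h3)
    omega
  have hrd : r.natDegree ≤ d := by
    have h1 : Period K d χ (X ^ d) := by
      refine ⟨monic_X_pow d, fun s hs => ?_⟩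
      have : s = 0 := by
        by_contra h0
        have h2 : ((X : K[X]) ^ d * s).degree = (d : WithBot ℕ) + s.degree := by
          rw [degree_mul, degree_X_pow]
        rw [h2, degree_eq_natDegree h0] at hs
        have h3 : d + s.natDegree < d := by exact_mod_cast hs
        omega
      rw [this, mul_zero, AddChar.map_zero_eq_one]
    have := hr.2 _ h1
    rwa [natDegree_X_pow] at this
  have h := H d ψ r ρ hd hM hrd hρ hρd hsq
  have hsum : expSum K d χ = ((Pool.Agent.H290.FX.SX K d ψ : ℝ) : ℂ) := by
    unfold expSum Pool.Agent.H290.FX.SX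
    rw [Complex.ofReal_sum]
    rw [← finsum_mem_coe_finset]
    refine finsum_mem_congr ?_ (fun a _ => (hψ a).symm)
    ext a
    simp only [Set.mem_setOf_eq, Finset.coe_filter, Pool.Agent.H694.Typ.mem_Mn]
    tauto
  have hmu : mu K r = Pool.Agent.H985.Chow.mob r := by
    unfold mu Pool.Agent.H985.Chow.mob
    congr
  have hphi : phi K r = Pool.Agent.H290.FX.PExp.ph r := by
    unfold phi Pool.Agent.H290.FX.PExp.ph
    congr
  rw [hsum, hmu, hphi, ← hψ ρ]
  have h2 : ((Pool.Agent.H290.FX.SX K d ψ : ℝ) : ℂ) -
      (Pool.Agent.H985.Chow.mob r : ℂ) * ((ψ ρ : ℝ) : ℂ) /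
        (Pool.Agent.H290.FX.PExp.ph r : ℂ) * ((Fintype.card K : ℂ) ^ d / (2 * d)) =
      ((Pool.Agent.H290.FX.SX K d ψ - (Pool.Agent.H985.Chow.mob r : ℝ) * ψ ρ /
        Pool.Agent.H290.FX.PExp.ph r * ((Fintype.card K : ℝ) ^ d / (2 * d)) : ℝ) : ℂ) := by
    push_cast
    ring
  rw [h2, Complex.norm_real, Real.norm_eq_abs]
  exact h

end Pool.Agent.Results.MP_7169d5_nt.AllAdditiveCharacters
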