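import Pool.Agent.H543.DD.Fin1

/-!
# Almost primes `n ^ 2 + 1` in short intervals

There are `δ, c > 0` such that for all large `X` and all `H` with `X ^ (1 - δ) ≤ H ≤ X` the interval
`(X, X + H]` contains at least `c H / log X` integers `n` such that `n ^ 2 + 1` has at most two prime
factors (counted with multiplicity), each of them at least `n ^ (23 / 100)`.
-/

set_option autoImplicit false

namespace Pool.Agent.Results.MP_7169d5_nt.AlmostPrimeTwoShort

open Finset

open Classical in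
theorem result : ∃ δ c : ℝ, 0 < δ ∧ 0 < c ∧ ∃ X0 : ℕ, ∀ X : ℕ, X0 ≤ X → ∀ H : ℕ,
    (X : ℝ) ^ (1 - δ) ≤ H → H ≤ X → c * H / Real.log X ≤
      (((Ioc X (X + H)).filter (fun n : ℕ => ArithmeticFunction.cardFactors (n ^ 2 + 1) ≤ 2 ∧
        ∀ p : ℕ, p.Prime → p ∣ n ^ 2 + 1 → (n : ℝ) ^ (23 / 100 : ℝ) ≤ p)).card : ℝ) :=
  Pool.Agent.H543.DD.p2_short Pool.Agent.Y346.PA.kl

end Pool.Agent.Results.MP_7169d5_nt.AlmostPrimeTwoShort
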