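import Pool.Agent.H543.MQ.R.R3
import Pool.Agent.H543.MQ.Pat

/-!
# Bounded clusters of values of quadratic polynomials with at most two prime factors

Maynard's and Tao's theorem for the values with at most two prime factors of every quadratic
polynomial without fixed prime divisor, for instance `X ^ 2 + 1`.
-/

set_option autoImplicit false

namespace Pool.Agent.Results.MP_7169d5_nt.ClustersOfAlmostPrimes

open Finset Filter Polynomial

/-- The value of `A X ^ 2 + B X + C`. -/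
def val (A B C x : ℤ) : ℤ := A * x ^ 2 + B * x + C

/-- The polynomial `f g` has no fixed prime divisor; here `f = A X ^ 2 + B X + C`. -/
def NoFixedDivisor (A B C : ℤ) (g : ℤ[X]) : Prop :=
  ∀ p : ℕ, p.Prime → ∃ n : ℤ, ¬ (p : ℤ) ∣ val A B C n * g.eval n

/-- `f x` has at most two prime factors (with multiplicity), all of them `≥ N ^ (6 / 25)`, and `g x`
has no prime factor `< N ^ δ`; here `f = A X ^ 2 + B X + C`. -/
def Good (A B C : ℤ) (g : ℤ[X]) (δ : ℝ) (N x : ℕ) : Prop :=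
  (val A B C x).natAbs.primeFactorsList.length ≤ 2 ∧
  (∀ p : ℕ, p.Prime → (p : ℤ) ∣ val A B C x → (N : ℝ) ^ (6 / 25 : ℝ) ≤ p) ∧
  ∀ p : ℕ, p.Prime → (p : ℤ) ∣ g.eval (x : ℤ) → (N : ℝ) ^ δ ≤ p

open Classical in
/-- The number of the `n` in `(N, N + X]` such that all `n + h`, `h ∈ H`, are good. -/
noncomputable def number (A B C : ℤ) (g : ℤ[X]) (δ : ℝ) (H : Finset ℕ) (N X : ℕ) : ℕ :=
  ((Ioc N (N + X)).filter (fun n : ℕ => ∀ h ∈ H, Good A B C g δ N (n + h))).card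

open Classical in
/-- The number of the `n` in `(N, N + X]` in the class of `a` modulo `q` such that all `n + q h`,
`h ∈ H`, are good. -/
noncomputable def numberInClass (A B C : ℤ) (g : ℤ[X]) (δ : ℝ) (H : Finset ℕ) (q a N X : ℕ) : ℕ :=
  ((Ioc N (N + X)).filter (fun n : ℕ => n % q = a % q ∧ ∀ h ∈ H, Good A B C g δ N (n + q * h))).card

/-- The number of the residues `n` modulo `p` with `f n g n ≡ 0 (mod p)`. -/
def zeros (A B C : ℤ) (g : ℤ[X]) (p : ℕ) : ℕ :=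
  ((range p).filter (fun n : ℕ => (p : ℤ) ∣ val A B C n * g.eval (n : ℤ))).card

/-- There is a progression `n, n + d, ..., n + (l - 1) d` in `(N, N + X]` with difference
`1 ≤ d ≤ (log N) ^ B` such that all `n + j d + h`, `j < l`, `h ∈ H`, are good. -/
def Progression (a b c : ℤ) (g : ℤ[X]) (δ : ℝ) (H : Finset ℕ) (l B N X : ℕ) : Prop :=
  ∃ n d : ℕ, N < n ∧ n + (l - 1) * d ≤ N + X ∧ 1 ≤ d ∧ (d : ℝ) ≤ Real.log N ^ B ∧
    ∀ j < l, ∀ h ∈ H, Good a b c g δ N (n + j * d + h)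

/-- The pattern `H` occurs again and again: for every `l` there are infinitely many `N` such that the
interval `(N, N + X]`, `X = ⌈N ^ (1 - δ₀)⌉`, contains at least `X / (log N) ^ D` integers `n` with all
`n + h`, `h ∈ H`, good, and a progression of length `l` of such `n` with difference at most a power of
`log N`. -/
def Recurrent (A B C : ℤ) (g : ℤ[X]) (δ₀ δ : ℝ) (D : ℕ) (H : Finset ℕ) : Prop :=
  ∀ l : ℕ, 2 ≤ l → ∃ B' : ℕ, ∃ᶠ N : ℕ in atTop,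
    (⌈(N : ℝ) ^ (1 - δ₀)⌉₊ : ℝ) / Real.log N ^ D ≤ number A B C g δ H N ⌈(N : ℝ) ^ (1 - δ₀)⌉₊ ∧
    Progression A B C g δ H l B' N ⌈(N : ℝ) ^ (1 - δ₀)⌉₊

open Classical in
/-- **Bounded clusters of values with at most two prime factors.** -/
theorem result (A B C : ℤ) (hA : 0 < A) (hD : ¬ IsSquare (B ^ 2 - 4 * A * C)) :
    ∃ δ₀ : ℝ, 0 < δ₀ ∧ ∀ D₀ : ℕ,
      -- single arguments: the right order of magnitude, uniformly in the polynomial `g`, whose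
      -- coefficients are arbitrary, and in the class `a` modulo `q`, `q ≤ N ^ δ`
      (∃ δ c : ℝ, 0 < δ ∧ 0 < c ∧
        ∀ᶠ N : ℕ in atTop, ∀ g : ℤ[X], g.natDegree ≤ D₀ → NoFixedDivisor A B C g →
        ∀ q a : ℕ, 0 < q → (q : ℝ) ≤ (N : ℝ) ^ δ →
        (∀ p : ℕ, p.Prime → p ∣ q → ¬ (p : ℤ) ∣ val A B C a * g.eval (a : ℤ)) →
        ∀ X : ℕ, (N : ℝ) ^ (1 - δ₀) ≤ X → 2 * X ≤ N →
          c * (X / q * ∏ p ∈ (Icc 1 N).filter (fun p : ℕ => p.Prime ∧ ¬ p ∣ q),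
            (1 - (zeros A B C g p : ℝ) / p)) ≤ numberInClass A B C g δ {0} q a N X) ∧
      ∃ c : ℝ, 0 < c ∧ ∀ m : ℕ, ∃ (K D : ℕ) (δ : ℝ),
      0 < δ ∧ (K : ℝ) ≤ Real.exp (Real.exp (c * (m + 1))) ∧
      -- uniformly in the polynomial `g`, whose coefficients are arbitrary, in the class `a` modulo `q`,
      -- `q ≤ N ^ δ`, and in the set `S ⊆ [0, N ^ δ]`: every such set with at least `K` elements
      -- contains a pattern with `m` elements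
      (∀ᶠ N : ℕ in atTop, ∀ g : ℤ[X], g.natDegree ≤ D₀ → NoFixedDivisor A B C g →
        ∀ q a : ℕ, 0 < q → (q : ℝ) ≤ (N : ℝ) ^ δ →
        (∀ p : ℕ, p.Prime → p ∣ q → ¬ (p : ℤ) ∣ val A B C a * g.eval (a : ℤ)) →
        ∀ S : Finset ℕ, K ≤ S.card → (∀ h ∈ S, (h : ℝ) ≤ (N : ℝ) ^ δ) →
        ∀ X : ℕ, (N : ℝ) ^ (1 - δ₀) ≤ X → 2 * X ≤ N → ∃ H ⊆ S, H.card = m ∧
          X / (q * Real.log N ^ D) ≤ numberInClass A B C g δ H q a N X) ∧
      ∀ g : ℤ[X], g.natDegree ≤ D₀ → NoFixedDivisor A B C g →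
        -- for a fixed `g` and a fixed `S`, the pattern also occurs along a progression
        (∀ S : Finset ℕ, K ≤ S.card → ∀ l : ℕ, 2 ≤ l → ∃ B' : ℕ, ∀ᶠ N : ℕ in atTop,
          ∀ X : ℕ, (N : ℝ) ^ (1 - δ₀) ≤ X → 2 * X ≤ N → ∃ H ⊆ S, H.card = m ∧
          X / Real.log N ^ D ≤ number A B C g δ H N X ∧ Progression A B C g δ H l B' N X) ∧
        -- a positive proportion of the patterns with `m` elements are recurrent
        (∀ U : Finset ℕ, K ≤ U.card → U.card.choose m ≤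
          K.choose m * ((U.powersetCard m).filter (Recurrent A B C g δ₀ δ D)).card) := by
  obtain ⟨A', rfl⟩ : ∃ A' : ℕ, A = A' := ⟨A.toNat, by omega⟩
  have hA' : 1 ≤ A' := by exact_mod_cast hA
  obtain ⟨δ₁, hδ₁, hδ₁1, hcl⟩ := Pool.Agent.H543.MQ.V.clu_poly_q A' B C hA' hD
  obtain ⟨δ₂, hδ₂, hδ₂1, hone⟩ := Pool.Agent.H543.MQ.R.one_poly_q A' B C hA' hD
  obtain ⟨δ₀, hδ₀, hle1, hle2⟩ : ∃ δ₀ : ℝ, 0 < δ₀ ∧ δ₀ ≤ δ₁ ∧ δ₀ ≤ δ₂ :=
    ⟨min δ₁ δ₂, lt_min hδ₁ hδ₂, min_le_left _ _, min_le_right _ _⟩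
  have hpw : ∀ δ' : ℝ, δ₀ ≤ δ' → ∀ N X : ℕ, 1 ≤ N → (N : ℝ) ^ (1 - δ₀) ≤ X →
      (N : ℝ) ^ (1 - δ') ≤ X := fun δ' h N X hN hX =>
    (Real.rpow_le_rpow_of_exponent_le (by exact_mod_cast hN) (by linarith)).trans hX
  have hgood : ∀ (g : ℤ[X]) (δ : ℝ) (N x : ℕ), Pool.Agent.H543.MQ.U.Gf A' B C
      (fun n => g.eval n) N δ x → Good A' B C g δ N x := fun g δ N x h => h
  have hnum : ∀ (g : ℤ[X]) (δ : ℝ) (H : Finset ℕ) (N X : ℕ),
      (((Ioc N (N + X)).filter (fun n : ℕ => ∀ h ∈ H, Pool.Agent.H543.MQ.U.Gf A' B C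
        (fun n => g.eval n) N δ (n + h))).card : ℝ) ≤ number A' B C g δ H N X := by
    intro g δ H N X
    unfold number
    have : ((Ioc N (N + X)).filter (fun n : ℕ => ∀ h ∈ H, Pool.Agent.H543.MQ.U.Gf A' B C
        (fun n => g.eval n) N δ (n + h))).card ≤
        ((Ioc N (N + X)).filter (fun n : ℕ => ∀ h ∈ H, Good A' B C g δ N (n + h))).card :=
      card_le_card (fun n hn => by
        rw [mem_filter] at hn ⊢
        exact ⟨hn.1, fun h hh => hgood _ _ _ _ (hn.2 h hh)⟩)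
    exact_mod_cast this
  refine ⟨δ₀, hδ₀, fun D₀ => ⟨?_, ?_⟩⟩
  · obtain ⟨δ, c, hδ, hc, hev⟩ := hone D₀
    refine ⟨δ, c, hδ, hc, ?_⟩
    filter_upwards [hev, eventually_ge_atTop 1] with N hN hN1 g hgd hg q a hq hqN haq X hX1 hX2
    have h1 := hN g hgd hg q a hq hqN haq X (hpw δ₂ hle2 N X hN1 hX1) hX2
    have h2 : ((Ioc N (N + X)).filter (fun n : ℕ => n % q = a % q ∧
        Pool.Agent.H543.MQ.U.Gf A' B C (fun n => g.eval n) N δ n)).card ≤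
        numberInClass A' B C g δ {0} q a N X := by
      unfold numberInClass
      apply card_le_card
      intro n hn
      rw [mem_filter] at hn ⊢
      refine ⟨hn.1, hn.2.1, fun h hh => ?_⟩
      rw [mem_singleton] at hh
      subst hh
      rw [mul_zero, add_zero]
      exact hgood _ _ _ _ hn.2.2
    refine le_trans ?_ (h1.trans (by exact_mod_cast h2))
    exact le_rfl
  obtain ⟨c, hc, hcl⟩ := hcl D₀
  refine ⟨c, hc, fun m => ?_⟩
  obtain ⟨K, D, δ, hδ, hK, h1, h2⟩ := hcl m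
  refine ⟨K, D, δ, hδ, hK, ?_, ?_⟩
  · filter_upwards [h1, eventually_ge_atTop 1] with N hN hN1 g hgd hg q a hq hqN haq S hS hSb X hX1 hX2
    obtain ⟨H, hH, hHm, hn⟩ := hN g hgd hg q a hq hqN haq S hS hSb X (hpw δ₁ hle1 N X hN1 hX1) hX2
    refine ⟨H, hH, hHm, hn.trans ?_⟩
    unfold numberInClass
    have : ((Ioc N (N + X)).filter (fun n : ℕ => n % q = a % q ∧ ∀ h ∈ H,
        Pool.Agent.H543.MQ.U.Gf A' B C (fun n => g.eval n) N δ (n + q * h))).card ≤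
        ((Ioc N (N + X)).filter (fun n : ℕ => n % q = a % q ∧
          ∀ h ∈ H, Good A' B C g δ N (n + q * h))).card :=
      card_le_card (fun n hn => by
        rw [mem_filter] at hn ⊢
        exact ⟨hn.1, hn.2.1, fun h hh => hgood _ _ _ _ (hn.2.2 h hh)⟩)
    exact_mod_cast this
  intro g hgd hg
  have hcl' : ∀ S : Finset ℕ, K ≤ S.card → ∀ l : ℕ, 2 ≤ l → ∃ B' : ℕ, ∀ᶠ N : ℕ in atTop,
      ∀ X : ℕ, (N : ℝ) ^ (1 - δ₀) ≤ X → 2 * X ≤ N → ∃ H ⊆ S, H.card = m ∧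
        X / Real.log N ^ D ≤ number A' B C g δ H N X ∧ Progression A' B C g δ H l B' N X := by
    intro S hS l hl
    obtain ⟨B', hN⟩ := h2 g hgd hg S hS l hl
    refine ⟨B', ?_⟩
    filter_upwards [hN, eventually_ge_atTop 1] with N hN hN1 X hX1 hX2
    obtain ⟨H, hH, hHm, hn, n, d, a1, a2, a3, a4, a5⟩ := hN X (hpw δ₁ hle1 N X hN1 hX1) hX2
    exact ⟨H, hH, hHm, hn.trans (hnum g δ H N X), n, d, a1, a2, a3, a4,
      fun j hj h hh => hgood _ _ _ _ (a5 j hj h hh)⟩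
  refine ⟨hcl', ?_⟩
  have hX : ∀ᶠ N : ℕ in atTop, 2 * ⌈(N : ℝ) ^ (1 - δ₀)⌉₊ ≤ N := by
    have h1 : ∀ᶠ N : ℕ in atTop, (4 : ℝ) ≤ (N : ℝ) ^ δ₀ :=
      ((tendsto_rpow_atTop hδ₀).comp tendsto_natCast_atTop_atTop).eventually_ge_atTop _
    filter_upwards [h1, eventually_ge_atTop 4] with N h2 h3
    have h3r : (4 : ℝ) ≤ N := by exact_mod_cast h3
    have hN0 : (0 : ℝ) < N := by linarith
    have h4 := Nat.ceil_lt_add_one (show 0 ≤ (N : ℝ) ^ (1 - δ₀) by positivity)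
    have h5 : (N : ℝ) = (N : ℝ) ^ (1 - δ₀) * (N : ℝ) ^ δ₀ := by
      rw [← Real.rpow_add hN0]
      norm_num
    have h6 : (N : ℝ) ^ (1 - δ₀) * 4 ≤ N := by
      conv_rhs => rw [h5]
      exact mul_le_mul_of_nonneg_left h2 (by positivity)
    have h7 : (2 : ℝ) * (⌈(N : ℝ) ^ (1 - δ₀)⌉₊ : ℝ) ≤ N := by linarith
    exact_mod_cast h7
  have hmK : m ≤ K := by
    obtain ⟨B', hN⟩ := hcl' (range K) (by rw [card_range]) 2 le_rfl
    obtain ⟨N, h1, h2⟩ := (hN.and hX).exists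
    obtain ⟨H, hH, hHm, -⟩ := h1 _ (Nat.le_ceil _) h2
    rw [← hHm]
    exact (card_le_card hH).trans (by rw [card_range])
  intro U hU
  apply Pool.Agent.H543.MQ.pat_dens m K _ hmK _ U hU
  intro S hS
  have hfin : ∃ H ∈ S.powersetCard m, ∀ l : ℕ, 2 ≤ l → ∃ B' : ℕ, ∃ᶠ N : ℕ in atTop,
    (⌈(N : ℝ) ^ (1 - δ₀)⌉₊ : ℝ) / Real.log N ^ D ≤
      number A' B C g δ H N ⌈(N : ℝ) ^ (1 - δ₀)⌉₊ ∧
    Progression A' B C g δ H l B' N ⌈(N : ℝ) ^ (1 - δ₀)⌉₊ := by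
    apply Pool.Agent.H543.MQ.pigeon_all
    · intro H l l' hll h hl
      obtain ⟨B', hB⟩ := h (hl.trans hll)
      refine ⟨B', hB.mono ?_⟩
      rintro N ⟨h1, n, d, h2, h3, h4, h5, h6⟩
      refine ⟨h1, n, d, h2, ?_, h4, h5, fun j hj => h6 j (by omega)⟩
      have : (l - 1) * d ≤ (l' - 1) * d := Nat.mul_le_mul_right _ (by omega)
      omega
    · intro l
      by_cases hl : 2 ≤ l
      · obtain ⟨B', hN⟩ := hcl' S hS.ge l hl
        obtain ⟨H, hH, hf⟩ := Pool.Agent.H543.MQ.pigeon_freq (S.powersetCard m)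
          (fun H N => (⌈(N : ℝ) ^ (1 - δ₀)⌉₊ : ℝ) / Real.log N ^ D ≤
            number A' B C g δ H N ⌈(N : ℝ) ^ (1 - δ₀)⌉₊ ∧
            Progression A' B C g δ H l B' N ⌈(N : ℝ) ^ (1 - δ₀)⌉₊) (by
            filter_upwards [hN, hX] with N h1 h2
            obtain ⟨H, hH, hHm, h3, h4⟩ := h1 _ (Nat.le_ceil _) h2
            exact ⟨H, mem_powersetCard.2 ⟨hH, hHm⟩, h3, h4⟩)
        exact ⟨H, hH, fun _ => ⟨B', hf⟩⟩
      · obtain ⟨H, hH⟩ := powersetCard_nonempty.2 (show m ≤ S.card by omega)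
        exact ⟨H, hH, fun h => absurd h hl⟩
  obtain ⟨H, hH, hr⟩ := hfin
  rw [mem_powersetCard] at hH
  exact ⟨H, hH.1, hH.2, hr⟩

end Pool.Agent.Results.MP_7169d5_nt.ClustersOfAlmostPrimes
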