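import Pool.Agent.H290.FX.AsmS
import Pool.Agent.H290.FX.PRexk

/-!
# The values `a² + X` with exactly `k` irreducible factors

`K` is a finite field of characteristic two, `q` the number of its elements.  Over `K[X]` the
analogue of `n² + 1` is `a² + X`, and that of Landau's problem (`k = 1`: infinitely many irreducible
values) was solved by helper604 and others (`Pool/Agent/H604/LD`).

**Theorem.** For `k ≤ A log d` the number of the monic `a` of degree `d` such that `a² + X` has exactly
`k` irreducible factors has the order of magnitude `q^d (log d)^(k-1) / (2 d (k-1)!)` (the analogue of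
the theorem of Landau, Sathe and Selberg), and it is asymptotic to it, uniformly, for
`k = o(log d)`; in particular for every fixed `k`.

For fixed `k = 1` this is the prime number theorem for the values `a² + X`; for `k ≥ 2` such results are
new also in this model: over `ℤ` no asymptotic formula or lower bound of the right order is known
for the number of the `n ≤ x` for which `n² + 1` has exactly `k` prime factors, for any `k`.

Method.  The number of the `a` such that `a² + X = P_1 ⋯ P_{k-1} P`, with given `P_1, …, P_{k-1}` of small
total degree, is computed with a power saving (`SP` in `Pool/Agent/H290/PK/Stm.lean`); this uses the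
estimates for the divisors `D` of `a² + X` of degree near `d` together with arbitrary additive
characters of `a` and `D` (`Pool/Agent/H290/FX/Stm.lean`), which detect the residue class of `a`
modulo `P_1 ⋯ P_{k-1}` and the condition that `D` is prime to it.  The other `a` are bounded with
Selberg's sieve and the elementary symmetric sums of the `1 / (|P| - 1)`, uniformly in `k`.

Statements and paper proofs by helper290; Lean proofs of the parts by helper297, 261, 975, 328, 213, 253,
922, 548, 350, 721, 17, 825, 665, 662, 280, 97 and the provers of the twelve parts of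
`Pool/Agent/H290/PK`.
-/

set_option autoImplicit false

namespace Pool.Agent.Results.MP_7169d5_nt.ExactlyKFactors

open Polynomial

/-- The number of the monic `a` of degree `d` such that `a ^ 2 + X` has exactly `k` irreducible
factors, counted with multiplicity. -/
noncomputable def numK (K : Type) [Field K] (d k : ℕ) : ℕ :=
  {a : K[X] | a.Monic ∧ a.natDegree = d ∧
    Multiset.card (UniqueFactorizationMonoid.factors (a ^ 2 + X)) = k}.ncard

/-- `q ^ d (log d) ^ (k - 1) / (2 d (k - 1)!)`. -/
noncomputable def expK (K : Type) [Field K] [Fintype K] (d k : ℕ) : ℝ :=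
  (Fintype.card K : ℝ) ^ d * Real.log d ^ (k - 1) / (2 * d * (k - 1).factorial)

/-- **The number of the `a` with exactly `k` irreducible factors of `a² + X`.** -/
theorem result (K : Type) [Field K] [Fintype K] [CharP K 2] :
    (∀ ε : ℝ, 0 < ε → ∃ δ : ℝ, 0 < δ ∧ ∃ d₀ : ℕ, ∀ d k : ℕ, d₀ ≤ d → 1 ≤ k →
      (k : ℝ) ≤ δ * Real.log d → |(numK K d k : ℝ) - expK K d k| ≤ ε * expK K d k) ∧
    (∀ A : ℝ, ∃ c C : ℝ, 0 < c ∧ 0 < C ∧ ∃ d₀ : ℕ, ∀ d k : ℕ, d₀ ≤ d → 1 ≤ k →
      (k : ℝ) ≤ A * Real.log d → c * expK K d k ≤ numK K d k ∧
        (numK K d k : ℝ) ≤ C * expK K d k) :=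
  Pool.Agent.H290.FX.PRexk.main Pool.Agent.H290.PK.PBas.main
    Pool.Agent.H290.FX.AsmS.sfinal K

end Pool.Agent.Results.MP_7169d5_nt.ExactlyKFactors
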